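import Mathlib

set_option autoImplicit false

namespace Pool.Agent.Results.MP_66a881_co.Day

open Finset

/-- `a₁, …, a_m` are distinct and form a `B_h` set over `ℤ`. -/
def IsBh {G : Type} [AddCommGroup G] {m : ℕ} (h : ℕ) (a : Fin m → G) : Prop :=
  Function.Injective a ∧ ∀ l k : Fin m → ℤ, ∑ i, |l i| = h → ∑ i, |k i| = h →
    ∑ i, l i • a i = ∑ i, k i • a i → l = k

theorem evn (h x y z : ℤ) (h2 : 2 ≤ h) (he : h % 2 = 0) (hp : (x + y + z) % 2 = 0)
    (hn : |x| + |y| + |z| ≤ 2 * h) (hz : 0 ≤ z) (e : x + h * y + (h ^ 2 + h + 1) * z = 0) :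
    x = 0 ∧ y = 0 ∧ z = 0 := by
  have a1 := abs_nonneg x
  have a2 := neg_abs_le x
  have a3 := neg_abs_le y
  have a4 := le_abs_self x
  have a5 := le_abs_self y
  rw [abs_of_nonneg hz] at hn
  have hz2 : z < 2 := by
    by_contra hc
    have b1 : -(h * |x|) ≤ x := by nlinarith
    have b2 : -(h * |y|) ≤ h * y := by nlinarith
    nlinarith
  rcases (by omega : z = 0 ∨ z = 1) with rfl | rfl
  · have b1 : y < 2 := by by_contra hc; nlinarith
    have b2 : -2 < y := by by_contra hc; nlinarith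
    rcases (by omega : y = 0 ∨ y = 1 ∨ y = -1) with rfl | rfl | rfl <;> omega
  · exfalso
    obtain ⟨t, rfl⟩ : ∃ t, y = t - (h + 1) := ⟨y + (h + 1), by ring⟩
    have e2 : x + h * t + 1 = 0 := by linear_combination e
    have b1 : t < 1 := by by_contra hc; nlinarith
    have b2 : -1 < t := by by_contra hc; nlinarith
    have : t = 0 := by omega
    subst this
    omega

theorem od (h x y z : ℤ) (h2 : 1 ≤ h) (he : h % 2 = 1) (hp : (x + y + z) % 2 = 0)
    (hn : |x| + |y| + |z| ≤ 2 * h) (hz : 0 ≤ z) (e : 2 * x + h * y + (h ^ 2 + h + 4) * z = 0) :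
    x = 0 ∧ y = 0 ∧ z = 0 := by
  have a1 := abs_nonneg x
  have a2 := neg_abs_le x
  have a3 := neg_abs_le y
  have a4 := le_abs_self x
  have a5 := le_abs_self y
  have a6 := abs_nonneg y
  rw [abs_of_nonneg hz] at hn
  rcases h2.eq_or_lt with rfl | h3
  · omega
  have hz2 : z < 2 := by
    by_contra hc
    have b1 : -(h * |x|) ≤ 2 * x := by nlinarith
    have b2 : -(h * |y|) ≤ h * y := by nlinarith
    nlinarith
  rcases (by omega : z = 0 ∨ z = 1) with rfl | rfl
  · have b1 : y < 4 := by by_contra hc; nlinarith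
    have b2 : -4 < y := by by_contra hc; nlinarith
    interval_cases y <;> omega
  · exfalso
    obtain ⟨t, rfl⟩ : ∃ t, y = t - (h + 1) := ⟨y + (h + 1), by ring⟩
    have e2 : 2 * x + h * t + 4 = 0 := by linear_combination e
    have b1 : t < 2 := by by_contra hc; nlinarith
    have b2 : -2 < t := by
      by_contra hc
      rcases (by omega : t = -2 ∨ t ≤ -3) with rfl | h4
      · omega
      · nlinarith
    interval_cases t <;> omega

theorem core (h n : ℕ) (hh : 1 ≤ h) (p q r : ℤ) (hp : 0 ≤ p) (hq : 0 ≤ q) (h1 : p ≤ r) (h2 : q ≤ r)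
    (hn : 2 * h * r < n)
    (key : ∀ x y z : ℤ, (x + y + z) % 2 = 0 → |x| + |y| + |z| ≤ 2 * h → 0 ≤ z →
      p * x + q * y + r * z = 0 → x = 0 ∧ y = 0 ∧ z = 0) :
    IsBh h ![(p : ZMod n), q, r] := by
  have main : ∀ l k : Fin 3 → ℤ, ∑ i, |l i| = ∑ i, |k i| → ∑ i, |k i| ≤ h →
      ∑ i, l i • ![(p : ZMod n), q, r] i = ∑ i, k i • ![(p : ZMod n), q, r] i → l = k := by
    intro l k e1 e2 e3
    simp only [Fin.sum_univ_three, Matrix.cons_val_zero, Matrix.cons_val_one, Matrix.cons_val,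
      zsmul_eq_mul] at e1 e2 e3
    have b0 := abs_sub (l 0) (k 0)
    have b1 := abs_sub (l 1) (k 1)
    have b2 := abs_sub (l 2) (k 2)
    have e4 : (n : ℤ) ∣ p * (l 0 - k 0) + q * (l 1 - k 1) + r * (l 2 - k 2) := by
      rw [← ZMod.intCast_zmod_eq_zero_iff_dvd]
      push_cast
      linear_combination e3
    have e5 := Int.eq_zero_of_abs_lt_dvd e4 (by
      refine lt_of_le_of_lt ((abs_add_three _ _ _).trans ?_) hn
      rw [abs_mul, abs_mul, abs_mul, abs_of_nonneg hp, abs_of_nonneg hq,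
        abs_of_nonneg (hp.trans h1)]
      have c0 := mul_le_mul_of_nonneg_right h1 (abs_nonneg (l 0 - k 0))
      have c1 := mul_le_mul_of_nonneg_right h2 (abs_nonneg (l 1 - k 1))
      have c2 := mul_le_mul_of_nonneg_left (show |l 0 - k 0| + |l 1 - k 1| + |l 2 - k 2| ≤ 2 * h by
        linarith) (hp.trans h1)
      linarith)
    have par : (l 0 - k 0 + (l 1 - k 1) + (l 2 - k 2)) % 2 = 0 := by
      have f : ∀ x : ℤ, |x| % 2 = x % 2 := fun x => by
        rcases abs_cases x with h | h <;> omega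
      have := f (l 0); have := f (l 1); have := f (l 2)
      have := f (k 0); have := f (k 1); have := f (k 2)
      omega
    have : l 0 - k 0 = 0 ∧ l 1 - k 1 = 0 ∧ l 2 - k 2 = 0 := by
      rcases le_total 0 (l 2 - k 2) with c | c
      · exact key _ _ _ par (by linarith) c e5
      · have := key (-(l 0 - k 0)) (-(l 1 - k 1)) (-(l 2 - k 2)) (by omega)
          (by rw [abs_neg, abs_neg, abs_neg]; linarith) (by omega) (by linarith)
        omega
    funext i
    fin_cases i <;> simp <;> omega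
  refine ⟨fun i j e => ?_, fun l k e1 e2 => main l k (e1.trans e2.symm) e2.le⟩
  have s1 : ∀ i : Fin 3, ∑ t, |(Pi.single i 1 : Fin 3 → ℤ) t| = 1 := by decide
  have := main (Pi.single i 1) (Pi.single j 1) (by rw [s1, s1]) (by rw [s1]; exact_mod_cast hh)
    (by simpa [Pi.single_apply] using e)
  revert this
  clear e
  revert i j
  decide

/-- `ℤ_n` has a three-element `B_h` set over `ℤ` for every `n ≥ 2h³ + 2h² + 8h + 1`. -/
theorem result (h n : ℕ) (hh : 1 ≤ h) (hn : 2 * h ^ 3 + 2 * h ^ 2 + 8 * h + 1 ≤ n) :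
    ∃ a : Fin 3 → ZMod n, IsBh h a := by
  have hn' : 2 * (h : ℤ) ^ 3 + 2 * h ^ 2 + 8 * h + 1 ≤ n := by exact_mod_cast hn
  have h0 : (1 : ℤ) ≤ h := by exact_mod_cast hh
  rcases Nat.mod_two_eq_zero_or_one h with he | he
  · exact ⟨_, core h n hh 1 h (h ^ 2 + h + 1) (by norm_num) (by omega) (by nlinarith) (by nlinarith)
      (by nlinarith) fun x y z a b c d => evn h x y z (by omega) (by omega) a b c (by linarith)⟩
  · exact ⟨_, core h n hh 2 h (h ^ 2 + h + 4) (by norm_num) (by omega) (by nlinarith) (by nlinarith)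
      (by nlinarith) fun x y z a b c d => od h x y z (by omega) (by omega) a b c (by linarith)⟩

end Pool.Agent.Results.MP_66a881_co.Day
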